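import Mathlib
import Pool.Agent.Q236.CR.Tri3

/-!
# The equation `a p - b q = c` for almost all triples, with coefficients up to `X / (log X)^B`

For all but a proportion `(log X)^{-U}` of the triples `(a, b, c)` with `1 ≤ a, b ≤ A`, `|c| ≤ A X` which satisfy the
conditions of the question, the number of prime solutions `p, q ≤ X`, weighted with `log p log q`, is given by the singular
series times the number of integral points, uniformly for all `A ≤ X / (log X)^B`.
-/

set_option autoImplicit false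

namespace Pool.Agent.Results.MP_bf63dc_nt.AlmostAllTriples

open Finset

/-- the triples `(a, b, c)` with `1 ≤ a, b ≤ A` and `|c| ≤ A X` -/
noncomputable def Triples (A X : ℕ) : Finset (ℕ × ℕ × ℤ) :=
  Icc 1 A ×ˢ (Icc 1 A ×ˢ Icc (-((A : ℤ) * X)) (A * X))

/-- the pairs `(m, n)` of integers with `1 ≤ m, n ≤ X` and `a m - b n = c` -/
def Points (X a b : ℕ) (c : ℤ) : Finset (ℕ × ℕ) :=
  (Icc 1 X ×ˢ Icc 1 X).filter (fun t : ℕ × ℕ => (a : ℤ) * t.1 - b * t.2 = c)

/-- the sum of `log p log q` over the pairs of primes `p, q ≤ X` with `a p - b q = c` -/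
noncomputable def primeSum (X a b : ℕ) (c : ℤ) : ℝ :=
  ∑ t ∈ (Points X a b c).filter (fun t => t.1.Prime ∧ t.2.Prime), Real.log t.1 * Real.log t.2

/-- the twin prime constant: the infimum (and the limit) of the products of `1 - 1 / (p - 1)^2` over the primes `3 ≤ p ≤ z` -/
noncomputable def C2 : ℝ := ⨅ z : ℕ, ∏ p ∈ (Icc 3 z).filter Nat.Prime, (1 - 1 / ((p : ℝ) - 1) ^ 2)

/-- the singular series `2 C2 ∏ (p - 1) / (p - 2)`, the product over the odd prime divisors `p` of `n` -/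
noncomputable def series (n : ℕ) : ℝ :=
  2 * C2 * ∏ p ∈ n.primeFactors.filter (fun p => 2 < p), ((p : ℝ) - 1) / ((p : ℝ) - 2)

/-- the conditions of the question, for positive `a`, `b` -/
def Admissible (a b : ℕ) (c : ℤ) : Prop :=
  c ≠ 0 ∧ a.Coprime b ∧ a.Coprime c.natAbs ∧ b.Coprime c.natAbs ∧ 2 ∣ a * b * c.natAbs

theorem result (U : ℕ) (hU : 1 ≤ U) : ∃ (B : ℕ) (κ : ℝ) (X0 : ℕ), 0 < κ ∧ ∀ X : ℕ, X0 ≤ X → ∀ A : ℕ, 1 ≤ A →
    (A : ℝ) * Real.log X ^ B ≤ X →
    ∃ Bad ⊆ Triples A X, (Bad.card : ℝ) ≤ (A : ℝ) ^ 3 * X / Real.log X ^ U ∧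
    ∀ a b : ℕ, ∀ c : ℤ, (a, b, c) ∈ Triples A X → (a, b, c) ∉ Bad → Admissible a b c →
      1 ≤ series (a * b * c.natAbs) ∧
      |primeSum X a b c - series (a * b * c.natAbs) * (Points X a b c).card| ≤
        (Real.exp (-κ * Real.log (X / A) / Real.log (Real.log X)) + 1 / Real.log X ^ U) *
          (series (a * b * c.natAbs) * (Points X a b c).card) + (X / A) / Real.log X ^ U ∧
      ((X / A) / Real.log X ^ (U - 1) ≤ (Points X a b c).card →
        ((Points X a b c).card : ℝ) / (4 * Real.log X ^ 2) ≤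
          ((Points X a b c).filter (fun t => t.1.Prime ∧ t.2.Prime)).card) := by
  obtain ⟨B, κ, X0, hκ, h⟩ := Pool.Agent.Q236.CR.Tri.tri U
  refine ⟨B, κ, X0, hκ, fun X hX A hA hAX => ?_⟩
  obtain ⟨hL40, h⟩ := h X hX
  obtain ⟨hex, Bad, hB1, hB2, hB3⟩ := h A hA hAX
  refine ⟨Bad, hB1, hB2, fun a b c hx hxb hadm => ?_⟩
  obtain ⟨h1, h2, h3, h4, h5⟩ := hadm
  have hS1 : 1 ≤ series (a * b * c.natAbs) := Pool.Agent.Q236.CR.Tri.S2_low _
  have hg := hB3 (a, b, c) hx hxb h1 h2 h3 h4 h5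
  have hps : Pool.Agent.Q236.CR.Tri.rS Pool.Agent.Q236.CR.Tri.tht Pool.Agent.Q236.CR.Tri.tht X a b c = primeSum X a b c := by
    unfold Pool.Agent.Q236.CR.Tri.rS primeSum
    rw [sum_filter]
    refine sum_congr rfl fun t _ => ?_
    unfold Pool.Agent.Q236.CR.Tri.tht
    by_cases ha : t.1.Prime <;> by_cases hb : t.2.Prime <;> simp [ha, hb]
  have hser : Pool.Agent.Q236.CR.S2 (a * b * c.natAbs) = series (a * b * c.natAbs) := rfl
  have hpt : Pool.Agent.Q236.CR.Tri.Sol X a b c = Points X a b c := rfl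
  simp only at hg
  rw [hps, hser, hpt] at hg
  refine ⟨hS1, hg, fun hT => ?_⟩
  set L := Real.log X with hL
  have hL0 : 0 < L := by linarith
  have hL1 : 1 ≤ L := by linarith
  obtain ⟨T, hTd⟩ : ∃ T : ℝ, T = ((Points X a b c).card : ℝ) := ⟨_, rfl⟩
  have hT0 : 0 ≤ T := by rw [hTd]; exact Nat.cast_nonneg _
  rw [← hTd] at hg hT ⊢
  obtain ⟨S, hSd⟩ : ∃ S : ℝ, S = series (a * b * c.natAbs) := ⟨_, rfl⟩
  rw [← hSd] at hg hS1
  have hexh : Real.exp (-κ * Real.log (X / A) / Real.log L) ≤ 1 / 2 := by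
    refine hex.trans ?_
    calc (1 / 2 : ℝ) ^ U ≤ (1 / 2) ^ 1 := pow_le_pow_of_le_one (by norm_num) (by norm_num) hU
      _ = 1 / 2 := pow_one _
  have hLU : L ≤ L ^ U := by
    calc L = L ^ 1 := (pow_one _).symm
      _ ≤ L ^ U := pow_le_pow_right₀ hL1 hU
  have hU1 : 1 / L ^ U ≤ 1 / 40 := one_div_le_one_div_of_le (by norm_num) (hL40.trans hLU)
  have hYT : (X / A : ℝ) / L ^ U ≤ T / 40 := by
    have e1 : L ^ U = L ^ (U - 1) * L := by
      rw [← pow_succ]
      congr 1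
      omega
    rw [e1, ← div_div]
    calc (X / A : ℝ) / L ^ (U - 1) / L ≤ T / L := by gcongr
      _ ≤ T / 40 := by gcongr
  have hST : T ≤ S * T := by nlinarith
  have hST0 : 0 ≤ S * T := hT0.trans hST
  have hlow : T / 4 ≤ primeSum X a b c := by
    have h6 := (abs_le.1 hg).1
    have h7 : (Real.exp (-κ * Real.log (X / A) / Real.log L) + 1 / L ^ U) * (S * T) ≤ (1 / 2 + 1 / 40) * (S * T) := by
      apply mul_le_mul_of_nonneg_right _ hST0
      linarith
    linarith
  have hup : primeSum X a b c ≤ (((Points X a b c).filter (fun t => t.1.Prime ∧ t.2.Prime)).card : ℕ) * L ^ 2 := by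
    unfold primeSum
    calc ∑ t ∈ (Points X a b c).filter (fun t => t.1.Prime ∧ t.2.Prime), Real.log t.1 * Real.log t.2 ≤
        ∑ t ∈ (Points X a b c).filter (fun t => t.1.Prime ∧ t.2.Prime), L ^ 2 := by
          refine sum_le_sum fun t ht => ?_
          rw [mem_filter] at ht
          unfold Points at ht
          rw [mem_filter, mem_product, mem_Icc, mem_Icc] at ht
          have h6 : Real.log t.1 ≤ L := Real.log_le_log (by exact_mod_cast ht.1.1.1.1) (by exact_mod_cast ht.1.1.1.2)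
          have h7 : Real.log t.2 ≤ L := Real.log_le_log (by exact_mod_cast ht.1.1.2.1) (by exact_mod_cast ht.1.1.2.2)
          rw [pow_two]
          exact mul_le_mul h6 h7 (Real.log_natCast_nonneg _) hL0.le
      _ = _ := by rw [sum_const, nsmul_eq_mul]
  rw [div_le_iff₀ (by positivity)]
  calc T = 4 * (T / 4) := by ring
    _ ≤ 4 * ((((Points X a b c).filter (fun t => t.1.Prime ∧ t.2.Prime)).card : ℕ) * L ^ 2) := by linarith
    _ = _ := by ring

end Pool.Agent.Results.MP_bf63dc_nt.AlmostAllTriples
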