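import Pool.Agent.Q145.LE.All
import Mathlib.NumberTheory.Chebyshev

set_option autoImplicit false
set_option maxHeartbeats 4000000

/-!
# Prime solutions of almost all long systems of equations `a_i p - b_i q_i = c_i`

For coprime `a_i, b_i ≥ 1` (`i ≤ K`) and integers `c_i` consider the system of equations `a_i p - b_i q_i = c_i` in
`K + 1` primes `p, q_1, ..., q_K`. If it has an integral solution `m = (m_0, ..., m_K)`, then the integral solutions are
`m + n A`, `A = (L, a_1 L / b_1, ..., a_K L / b_K)`, `L = lcm (b_1, ..., b_K)`. For points `m` in the box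
`1 ≤ m_j ≤ 2 A_j X` let `N_m` be the number of prime solutions with `m_0 + 3 X L < p ≤ m_0 + 4 X L`. The formula of
Hardy and Littlewood `N_m ~ 𝔖(m) X / ∏ log (2 A_j X)`, with the full singular series, is proved for almost all `m`
(whose system has no local obstruction), for systems whose length and coefficients grow with `X`, up to a bound `Q`:

* for every `X` and `Q = A log log X`;
* for arbitrarily large `X` and `Q = c log X / log log X` (for `K ≥ (1 + δ) log X / log log X` the expected number tends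
  to `0`);
* for every `X` and `Q = c log X / log log X`, unless there is an exceptional zero.
-/

namespace Pool.Agent.Results.MP_bf63dc_nt.LongSystemsOfEquations

open Finset Filter

open scoped Classical

/-- `L`, the least common multiple of the `b_i`. -/
def period {K : ℕ} (b : Fin K → ℕ) : ℕ := univ.lcm b

/-- The direction `A = (L, a_1 L / b_1, ..., a_K L / b_K)`. -/
def dir {K : ℕ} (a b : Fin K → ℕ) : Fin (K + 1) → ℕ := Fin.cons (period b) fun i => a i * (period b / b i)

/-- The constants `c_i = a_i m_0 - b_i m_i` of the system `a_i p - b_i q_i = c_i` solved by `m`. -/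
def const {K : ℕ} (a b : Fin K → ℕ) (m : Fin (K + 1) → ℕ) (i : Fin K) : ℤ := a i * m 0 - b i * m i.succ

/-- For a prime `r`: the number of classes `n` modulo `r` for which `r` divides a coordinate of the solution `m + n A`. -/
def classes {K : ℕ} (a b : Fin K → ℕ) (m : Fin (K + 1) → ℕ) (r : ℕ) : ℕ :=
  ((range r).filter fun n => ∃ j, r ∣ m j + n * dir a b j).card

/-- No local obstruction: for every prime `r` some solution `m + n A` has no coordinate divisible by `r`. -/
def Admissible {K : ℕ} (a b : Fin K → ℕ) (m : Fin (K + 1) → ℕ) : Prop := ∀ r : ℕ, r.Prime → classes a b m r < r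

/-- The partial products (primes up to `w`) of the singular series. -/
noncomputable def partialSeries {K : ℕ} (a b : Fin K → ℕ) (m : Fin (K + 1) → ℕ) (w : ℕ) : ℝ :=
  ∏ r ∈ (Icc 1 w).filter Nat.Prime, (1 - (classes a b m r : ℝ) / r) / (1 - 1 / (r : ℝ)) ^ (K + 1)

/-- The singular series: the limit of the partial products. -/
noncomputable def series {K : ℕ} (a b : Fin K → ℕ) (m : Fin (K + 1) → ℕ) : ℝ := limUnder atTop (partialSeries a b m)

/-- The number of primes `m_0 + 3 X L < p ≤ m_0 + 4 X L` for which there are primes `q_i` with `a_i p - b_i q_i = c_i`. -/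
noncomputable def count {K : ℕ} (X : ℕ) (a b : Fin K → ℕ) (m : Fin (K + 1) → ℕ) : ℕ :=
  ((Ioc (m 0 + 3 * X * period b) (m 0 + 4 * X * period b)).filter fun p : ℕ =>
    p.Prime ∧ ∀ i, ∃ q : ℕ, q.Prime ∧ (a i : ℤ) * p - b i * q = const a b m i).card

/-- The points `m` with `1 ≤ m_j ≤ 2 A_j X` whose system has no local obstruction. -/
noncomputable def points {K : ℕ} (X : ℕ) (a b : Fin K → ℕ) : Finset (Fin (K + 1) → ℕ) :=
  (Fintype.piFinset fun j => Icc 1 (2 * dir a b j * X)).filter (Admissible a b)

/-- For all but a proportion at most `ε` of the points `m` the singular series converges to a positive number `𝔖(m)` and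
`count = 𝔖(m) X / ∏ log (2 A_j X)`, with a relative error at most `ε`. -/
def Formula {K : ℕ} (X : ℕ) (a b : Fin K → ℕ) (ε : ℝ) : Prop :=
  (((points X a b).filter fun m => ¬ (0 < series a b m ∧ Tendsto (partialSeries a b m) atTop (nhds (series a b m)) ∧
    |count X a b m * ∏ j, Real.log (2 * dir a b j * X) - series a b m * X| ≤ ε * (series a b m * X))).card : ℝ) ≤
      ε * (points X a b).card

/-- The systems of level `Q`: at most `Q` equations, coprime coefficients with all prime factors at most `Q`,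
`a_i L ≤ 2 ^ (10 Q)`. -/
structure Level (Q : ℕ) {K : ℕ} (a b : Fin K → ℕ) : Prop where
  length : K ≤ Q
  pos : ∀ i, 1 ≤ a i ∧ 1 ≤ b i
  coprime : ∀ i, (a i).Coprime (b i)
  smooth : ∀ i, ∀ r : ℕ, r.Prime → r ∣ a i * b i → r ≤ Q
  size : ∀ i, a i * period b ≤ 2 ^ (10 * Q)

/-- The formula for all systems of level `Q`. -/
def Holds (X Q : ℕ) (ε : ℝ) : Prop := ∀ (K : ℕ) (a b : Fin K → ℕ), Level Q a b → Formula X a b ε

/-- There is no exceptional zero at the scale `X`: the real zeros `β` of the primitive quadratic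
characters of conductor `1 < r ≤ exp (log X / log log X)` are at most `1 - C log log X / log X`. -/
def NoExceptionalZero (C : ℝ) (X : ℕ) : Prop :=
  ∀ (r : ℕ) [NeZero r], 1 < r → (r : ℝ) ≤ Real.exp (Real.log X / Real.log (Real.log X)) →
    ∀ χ : DirichletCharacter ℂ r, χ.IsPrimitive → χ ^ 2 = 1 → ∀ β : ℝ, χ.LFunction β = 0 →
      β ≤ 1 - C * (Real.log (Real.log X) / Real.log X)

open Pool.Agent.Q145.LQ Pool.Agent.Q145.LE

section basics

variable {K : ℕ} {a b : Fin K → ℕ}

theorem period_pos (hb : ∀ i, 1 ≤ b i) : 0 < period b := by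
  unfold period
  rw [Nat.pos_iff_ne_zero, Ne, Finset.lcm_eq_zero_iff]
  rintro ⟨i, -, h⟩
  have := hb i
  omega

theorem dvd_period (i : Fin K) : b i ∣ period b := Finset.dvd_lcm (mem_univ i)

theorem dir_zero : dir a b 0 = period b := rfl

theorem dir_succ (i : Fin K) : dir a b i.succ = a i * (period b / b i) := rfl

theorem dir_pos (h : ∀ i, 1 ≤ a i ∧ 1 ≤ b i) (j : Fin (K + 1)) : 0 < dir a b j := by
  have hP := period_pos (b := b) fun i => (h i).2
  refine Fin.cases ?_ (fun i => ?_) j
  · exact hP
  · rw [dir_succ]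
    exact Nat.mul_pos (h i).1 (Nat.div_pos (Nat.le_of_dvd hP (dvd_period i)) (h i).2)

theorem b_dir (i : Fin K) : b i * dir a b i.succ = a i * period b := by
  rw [dir_succ, Nat.mul_left_comm, Nat.mul_div_cancel' (dvd_period i)]

/-- the integral solutions -/
theorem sol_iff (h : ∀ i, 1 ≤ a i ∧ 1 ≤ b i) (hc : ∀ i, (a i).Coprime (b i)) (m : Fin (K + 1) → ℕ) (x : Fin (K + 1) → ℤ) :
    (∀ i : Fin K, (a i : ℤ) * x 0 - b i * x i.succ = const a b m i) ↔ ∃ n : ℤ, ∀ j, x j = m j + n * dir a b j := by
  constructor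
  · intro hx
    have h1 : (period b : ℤ) ∣ x 0 - m 0 := by
      rw [Int.natCast_dvd]
      apply Finset.lcm_dvd
      intro i _
      rw [← Int.natCast_dvd]
      have h2 : (b i : ℤ) ∣ a i * (x 0 - m 0) := ⟨x i.succ - m i.succ, by
        have := hx i
        unfold const at this
        linarith⟩
      exact (IsCoprime.dvd_of_dvd_mul_left ((Nat.isCoprime_iff_coprime.2 (hc i)).symm) h2)
    obtain ⟨n, hn⟩ := h1
    refine ⟨n, fun j => ?_⟩
    refine Fin.cases ?_ (fun i => ?_) j
    · rw [dir_zero]; linarith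
    · have h3 : (b i : ℤ) * dir a b i.succ = a i * period b := by exact_mod_cast b_dir (a := a) (b := b) i
      have h4 := hx i
      unfold const at h4
      have hb : (b i : ℤ) ≠ 0 := by
        have := (h i).2
        omega
      apply mul_left_cancel₀ hb
      have e : (b i : ℤ) * x i.succ = b i * m i.succ + a i * (x 0 - m 0) := by linarith
      rw [e, hn, mul_add]
      have e2 : (b i : ℤ) * (n * dir a b i.succ) = n * (b i * dir a b i.succ) := by ring
      rw [e2, h3]
      ring
  · rintro ⟨n, hn⟩ i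
    have h3 : (b i : ℤ) * dir a b i.succ = a i * period b := by exact_mod_cast b_dir (a := a) (b := b) i
    rw [hn 0, hn i.succ, dir_zero]
    unfold const
    have : (b i : ℤ) * (m i.succ + n * dir a b i.succ) = b i * m i.succ + n * (b i * dir a b i.succ) := by ring
    rw [this, h3]
    ring

/-- the polynomials -/
noncomputable def ql (X : ℕ) (a b : Fin K → ℕ) (j : Fin (K + 1)) : Polynomial ℤ :=
  Polynomial.C (dir a b j : ℤ) * Polynomial.X + Polynomial.C ((dir a b j : ℤ) * (2 * X))

theorem ql_eval (X : ℕ) (j : Fin (K + 1)) (n : ℤ) : (ql X a b j).eval n = dir a b j * (n + 2 * X) := by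
  unfold ql
  simp
  ring

theorem ql_deg (X : ℕ) (h : ∀ i, 1 ≤ a i ∧ 1 ≤ b i) (j : Fin (K + 1)) : (ql X a b j).natDegree = 1 := by
  unfold ql
  apply Polynomial.natDegree_linear
  have := dir_pos h j
  omega

theorem ql_c1 (X : ℕ) (j : Fin (K + 1)) : (ql X a b j).coeff 1 = dir a b j := by
  unfold ql
  simp

theorem ql_c0 (X : ℕ) (j : Fin (K + 1)) : (ql X a b j).coeff 0 = dir a b j * (2 * X) := by
  unfold ql
  simp

theorem shift_card (r t : ℕ) (P : ℕ → Prop) (hP : Function.Periodic P r) :
    ((range r).filter fun n => P (n + t)).card = ((range r).filter P).card := by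
  have h1 := Nat.filter_Ico_card_eq_of_periodic t r P hP
  have h2 := Nat.filter_Ico_card_eq_of_periodic 0 r P hP
  rw [Nat.zero_add] at h2
  rw [range_eq_Ico, h2, ← h1]
  refine card_nbij' (fun n => n + t) (fun n => n - t) ?_ ?_ ?_ ?_
  · intro n hn
    simp only [coe_filter, mem_Ico, Set.mem_ofPred_eq] at hn ⊢
    exact ⟨by omega, hn.2⟩
  · intro n hn
    simp only [coe_filter, mem_Ico, Set.mem_ofPred_eq] at hn ⊢
    refine ⟨by omega, ?_⟩
    rw [Nat.sub_add_cancel hn.1.1]
    exact hn.2
  · intro n hn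
    simp
  · intro n hn
    simp only [coe_filter, mem_Ico, Set.mem_ofPred_eq] at hn
    exact Nat.sub_add_cancel hn.1.1

theorem nu_eq (X : ℕ) (m : Fin (K + 1) → ℕ) (r : ℕ) : nuQ (ql X a b) m r = classes a b m r := by
  set P : ℕ → Prop := fun n => ∃ j, r ∣ m j + n * dir a b j with hP
  have hper : Function.Periodic P r := by
    intro n
    simp only [eq_iff_iff, hP]
    refine exists_congr fun j => ?_
    have : m j + (n + r) * dir a b j = m j + n * dir a b j + r * dir a b j := by ring
    rw [this]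
    exact (Nat.dvd_add_iff_left (Dvd.intro _ rfl)).symm
  have h1 : nuQ (ql X a b) m r = ((range r).filter fun n => P (n + 2 * X)).card := by
    unfold nuQ
    congr 1
    apply filter_congr
    intro n _
    refine exists_congr fun j => ?_
    rw [ql_eval, ← Int.natCast_dvd_natCast]
    have : (dir a b j : ℤ) * ((n : ℤ) + 2 * X) + m j = ((m j + (n + 2 * X) * dir a b j : ℕ) : ℤ) := by
      push_cast
      ring
    rw [this]
  have h2 : classes a b m r = ((range r).filter P).card := by
    unfold classes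
    congr 1
  rw [h1, h2]
  convert shift_card r (2 * X) P hper

theorem adm_iff (X : ℕ) (m : Fin (K + 1) → ℕ) : AdmQ (ql X a b) m ↔ Admissible a b m := by
  unfold AdmQ Admissible
  simp only [nu_eq]

theorem partial_eq (X : ℕ) (m : Fin (K + 1) → ℕ) : singPQ (ql X a b) m = partialSeries a b m := by
  funext w
  unfold singPQ partialSeries locQ
  simp only [nu_eq]

theorem series_eq (X : ℕ) (m : Fin (K + 1) → ℕ) : singQ (ql X a b) m = series a b m := by
  unfold series singQ
  rw [partial_eq]

theorem count_eq (h : ∀ i, 1 ≤ a i ∧ 1 ≤ b i) (hc : ∀ i, (a i).Coprime (b i)) (X : ℕ) (m : Fin (K + 1) → ℕ) :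
    count X a b m = cntQ X (ql X a b) m := by
  unfold count cntQ
  have hP := period_pos (b := b) fun i => (h i).2
  have hv : ∀ j n, vq (ql X a b j) n + m j = m j + (n + 2 * X) * dir a b j := by
    intro j n
    unfold vq
    rw [ql_eval]
    have : (dir a b j : ℤ) * ((n : ℤ) + 2 * X) = (((n + 2 * X) * dir a b j : ℕ) : ℤ) := by
      push_cast
      ring
    rw [this, Int.toNat_natCast]
    ring
  simp only [hv]
  symm
  refine card_nbij (fun n => m 0 + (n + 2 * X) * period b) ?_ ?_ ?_
  · intro n hn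
    simp only [coe_filter, mem_Ioc, Set.mem_ofPred_eq] at hn ⊢
    obtain ⟨⟨h1, h2⟩, h3⟩ := hn
    refine ⟨⟨?_, ?_⟩, h3 0, fun i => ⟨_, h3 i.succ, ?_⟩⟩
    · have : 3 * X * period b < (n + 2 * X) * period b := Nat.mul_lt_mul_of_pos_right (by omega) hP
      omega
    · have : (n + 2 * X) * period b ≤ 4 * X * period b := Nat.mul_le_mul_right _ (by omega)
      omega
    · have := (sol_iff h hc m (fun j => ((m j + (n + 2 * X) * dir a b j : ℕ) : ℤ))).2 ⟨n + 2 * X, fun j => by push_cast; ring⟩ i
      rw [← this, dir_zero]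
  · intro n _ n' _ e
    have e' : m 0 + (n + 2 * X) * period b = m 0 + (n' + 2 * X) * period b := e
    have := Nat.eq_of_mul_eq_mul_right hP (Nat.add_left_cancel e')
    omega
  · intro p hp
    simp only [coe_filter, mem_Ioc, Set.mem_ofPred_eq, Set.mem_image] at hp ⊢
    obtain ⟨⟨h1, h2⟩, h3, h4⟩ := hp
    choose q hq1 hq2 using h4
    obtain ⟨n, hn⟩ := (sol_iff h hc m (Fin.cons (p : ℤ) fun i => (q i : ℤ))).1 (fun i => by
      rw [Fin.cons_zero, Fin.cons_succ]
      exact hq2 i)
    have h0 := hn 0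
    rw [Fin.cons_zero, dir_zero] at h0
    have hPz : (0 : ℤ) < period b := by exact_mod_cast hP
    have h1' : (m 0 : ℤ) + 3 * X * period b < p := by exact_mod_cast h1
    have h2' : (p : ℤ) ≤ m 0 + 4 * X * period b := by exact_mod_cast h2
    have g1 : 3 * (X : ℤ) < n := by
      by_contra hcon
      push Not at hcon
      have : n * period b ≤ 3 * (X : ℤ) * period b := mul_le_mul_of_nonneg_right hcon hPz.le
      linarith
    have g2 : n ≤ 4 * (X : ℤ) := by
      by_contra hcon
      push Not at hcon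
      have : 4 * (X : ℤ) * period b < n * period b := mul_lt_mul_of_pos_right hcon hPz
      linarith
    obtain ⟨n', rfl⟩ : ∃ n' : ℕ, n = n' + 2 * X := ⟨(n - 2 * X).toNat, by omega⟩
    have e0 : m 0 + (n' + 2 * X) * period b = p := by
      have : ((m 0 + (n' + 2 * X) * period b : ℕ) : ℤ) = p := by
        rw [h0]
        push_cast
        ring
      exact_mod_cast this
    refine ⟨n', ⟨⟨by omega, by omega⟩, fun j => ?_⟩, e0⟩
    refine Fin.cases ?_ (fun i => ?_) j
    · rw [dir_zero, e0]
      exact h3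
    · have h5 := hn i.succ
      rw [Fin.cons_succ] at h5
      have : m i.succ + (n' + 2 * X) * dir a b i.succ = q i := by
        have : ((m i.succ + (n' + 2 * X) * dir a b i.succ : ℕ) : ℤ) = q i := by
          rw [h5]
          push_cast
          ring
        exact_mod_cast this
      rw [this]
      exact hq1 i

theorem points_eq (X : ℕ) : points X a b = ATQ (fun j => 2 * dir a b j * X) (ql X a b) := by
  unfold points ATQ
  ext m
  simp only [mem_filter, adm_iff]

theorem formula_of (h : ∀ i, 1 ≤ a i ∧ 1 ≤ b i) (hc : ∀ i, (a i).Coprime (b i)) (X : ℕ) {ε : ℝ}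
    (hH : HLC X (fun j => 2 * dir a b j * X) (ql X a b) ε) : Formula X a b ε := by
  unfold HLC at hH
  unfold Formula
  rw [points_eq]
  have e : ∏ j, Real.log (2 * dir a b j * X) = ∏ j, Real.log ((2 * dir a b j * X : ℕ) : ℝ) := by
    refine prod_congr rfl fun j _ => ?_
    push_cast
    rfl
  rw [e]
  simp only [count_eq h hc, ← series_eq X, ← partial_eq X]
  exact hH

end basics

theorem dir_le {Q K : ℕ} {a b : Fin K → ℕ} (h : Level Q a b) (j : Fin (K + 1)) : dir a b j ≤ 2 ^ (10 * Q) := by
  refine Fin.cases ?_ (fun i => ?_) j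
  · rw [dir_zero]
    rcases Nat.eq_zero_or_pos K with h0 | h0
    · subst h0
      have : period b = 1 := by
        unfold period
        rw [univ_eq_empty, Finset.lcm_empty]
      rw [this]
      exact Nat.one_le_two_pow
    · have h1 := h.size ⟨0, h0⟩
      have h2 := (h.pos ⟨0, h0⟩).1
      nlinarith
  · rw [dir_succ]
    exact (Nat.mul_le_mul_left _ (Nat.div_le_self _ _)).trans (h.size i)

theorem dir_smooth {Q K : ℕ} {a b : Fin K → ℕ} (h : Level Q a b) (j : Fin (K + 1)) {r : ℕ} (hr : r.Prime) (hd : r ∣ dir a b j) : r ≤ Q := by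
  have hp : r ∣ period b → r ≤ Q := by
    intro hd
    have h1 : period b ∣ ∏ i, b i := Finset.lcm_dvd fun i hi => dvd_prod_of_mem b hi
    obtain ⟨i, -, hi⟩ := (Prime.dvd_finsetProd_iff hr.prime _).1 (hd.trans h1)
    exact h.smooth i r hr (hi.mul_left _)
  revert hd
  refine Fin.cases ?_ (fun i => ?_) j
  · exact hp
  · intro hd
    rw [dir_succ] at hd
    rcases (hr.dvd_mul).1 hd with h1 | h1
    · exact h.smooth i r hr (h1.mul_right _)
    · exact hp (h1.trans (Nat.div_dvd_of_dvd (dvd_period i)))

theorem sysE_of {Q K X : ℕ} {a b : Fin K → ℕ} (h : Level Q a b) : SysE 1 (4 * (Q + 2)) X X (fun j => 2 * dir a b j * X) (ql X a b) where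
  deg := fun j => by rw [ql_deg X h.pos j]; norm_num
  lead := fun j p hp hz hd => by
    rw [lc_lin (ql_deg X h.pos j), ql_c1, Int.natCast_dvd_natCast] at hd
    have := dir_smooth h j hp hd
    omega
  scale := fun j => by
    have h1 := dir_pos h.pos j
    have h2 := dir_le h j
    refine ⟨by nlinarith, Nat.mul_le_mul_right _ ?_⟩
    unfold Uz
    calc 2 * dir a b j ≤ 2 * 2 ^ (10 * Q) := Nat.mul_le_mul_left _ h2
      _ = 2 ^ (10 * Q + 1) := by rw [pow_succ]; ring
      _ ≤ _ := Nat.pow_le_pow_right (by norm_num) (by omega)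
  val := fun j n hn => by
    rw [mem_Ioc] at hn
    obtain ⟨h1, h2⟩ := hn
    have h1' : (X : ℤ) + 1 ≤ n := by exact_mod_cast h1
    have h2' : (n : ℤ) ≤ 2 * X := by exact_mod_cast h2
    have h0 : (0 : ℤ) ≤ X := by positivity
    have h3 : (1 : ℤ) ≤ dir a b j := by exact_mod_cast dir_pos h.pos j
    rw [ql_eval]
    push_cast
    constructor
    · have : 0 < (dir a b j : ℤ) * (4 * ((n : ℤ) + 2 * X) - 10 * X) := mul_pos (by linarith) (by linarith)
      linarith
    · have : 0 ≤ (dir a b j : ℤ) * (4 * X - ((n : ℤ) + 2 * X)) := mul_nonneg (by linarith) (by linarith)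
      linarith

theorem holds_of {X Q : ℕ} {ε : ℝ} (h : PLE X (4 * (Q + 2)) ε) : Holds X Q ε := by
  intro K a b hL
  have := hL.length
  exact formula_of hL.pos hL.coprime X (h (K + 1) _ _ (by omega) (sysE_of hL))

/-- coefficients at most `Q` -/
theorem level_of {Q K : ℕ} {a b : Fin K → ℕ} (hK : K ≤ Q) (h : ∀ i, 1 ≤ a i ∧ a i ≤ Q ∧ 1 ≤ b i ∧ b i ≤ Q ∧ (a i).Coprime (b i)) : Level Q a b where
  length := hK
  pos := fun i => ⟨(h i).1, (h i).2.2.1⟩
  coprime := fun i => (h i).2.2.2.2
  smooth := fun i r hr hd => by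
    rcases (hr.dvd_mul).1 hd with h1 | h1
    · exact (Nat.le_of_dvd (h i).1 h1).trans (h i).2.1
    · exact (Nat.le_of_dvd (h i).2.2.1 h1).trans (h i).2.2.2.1
  size := fun i => by
    have h1 : period b ∣ Nat.lcmUpto Q := by
      apply Finset.lcm_dvd
      intro i _
      have : id (b i) ∣ (Icc 1 Q).lcm id := Finset.dvd_lcm (mem_Icc.2 ⟨(h i).2.2.1, (h i).2.2.2.1⟩)
      exact this
    have h2 : period b ≤ Nat.lcmUpto Q := Nat.le_of_dvd (Nat.lcmUpto_pos Q) h1
    have h3 : (Nat.lcmUpto Q : ℝ) ≤ 2 ^ (9 * Q) := by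
      have e1 := Chebyshev.psi_eq_log_lcmUpto Q
      have e2 := Chebyshev.psi_le_const_mul_self (x := (Q : ℝ)) (Nat.cast_nonneg Q)
      have h0 : (0 : ℝ) < Nat.lcmUpto Q := by exact_mod_cast Nat.lcmUpto_pos Q
      rw [← Real.log_le_log_iff h0 (by positivity), Real.log_pow]
      push_cast
      have hl := Real.log_two_gt_d9
      have hl2 := Real.log_two_lt_d9
      have h4 : Real.log 4 = 2 * Real.log 2 := by
        rw [show (4 : ℝ) = 2 ^ 2 by norm_num, Real.log_pow]
        norm_num
      rw [h4] at e2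
      have hQ : (0 : ℝ) ≤ Q := Nat.cast_nonneg Q
      nlinarith
    have h4 : Nat.lcmUpto Q ≤ 2 ^ (9 * Q) := by exact_mod_cast h3
    have h5 : a i ≤ 2 ^ Q := (h i).2.1.trans Nat.lt_two_pow_self.le
    calc a i * period b ≤ 2 ^ Q * 2 ^ (9 * Q) := Nat.mul_le_mul h5 (h2.trans h4)
      _ = 2 ^ (10 * Q) := by rw [← pow_add]; congr 1; ring

theorem conv_of {K : ℕ} {a b : Fin K → ℕ} (h : ∀ i, 1 ≤ a i ∧ 1 ≤ b i) (m : Fin (K + 1) → ℕ) (hne : ∀ i, const a b m i ≠ 0)
    (hnd : ∀ i j, i ≠ j → a j * const a b m i ≠ a i * const a b m j) (hA : Admissible a b m) :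
    Tendsto (partialSeries a b m) atTop (nhds (series a b m)) ∧ 0 < series a b m := by
  rw [← series_eq 0, ← partial_eq 0]
  refine convE (fun j => ql_deg 0 h j) m ?_ ((adm_iff 0 m).2 hA)
  have hPz : (0 : ℤ) < period b := by exact_mod_cast period_pos (b := b) fun i => (h i).2
  have hb : ∀ i : Fin K, (b i : ℤ) * dir a b i.succ = a i * period b := fun i => by exact_mod_cast b_dir (a := a) (b := b) i
  have hbz : ∀ i : Fin K, (b i : ℤ) ≠ 0 := fun i => by
    have := (h i).2
    omega
  have hd : ∀ i j, dtl (ql 0 a b) m i j = dir a b i * m j - dir a b j * m i := by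
    intro i j
    unfold dtl cf
    rw [ql_c1, ql_c1, ql_c0, ql_c0]
    push_cast
    ring
  have h0s : ∀ i : Fin K, (b i : ℤ) * (dir a b 0 * m i.succ - dir a b i.succ * m 0) = - (period b * const a b m i) := by
    intro i
    rw [dir_zero]
    unfold const
    have := hb i
    linear_combination (-(m 0 : ℤ)) * this
  have hss : ∀ i j : Fin K, (b i : ℤ) * b j * (dir a b i.succ * m j.succ - dir a b j.succ * m i.succ) =
      period b * (a j * const a b m i - a i * const a b m j) := by
    intro i j
    unfold const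
    have e1 := hb i
    have e2 := hb j
    linear_combination ((b j : ℤ) * m j.succ) * e1 - ((b i : ℤ) * m i.succ) * e2
  intro i j hij
  rw [hd]
  revert hij
  refine Fin.cases ?_ (fun i' => ?_) i
  · refine Fin.cases ?_ (fun j' => ?_) j
    · intro hij
      exact absurd rfl hij
    · intro _ h0
      have := h0s j'
      rw [h0, mul_zero] at this
      have h2 : (period b : ℤ) * const a b m j' = 0 := by linarith
      rcases mul_eq_zero.1 h2 with h3 | h3
      · exact absurd h3 hPz.ne'
      · exact hne j' h3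
  · refine Fin.cases ?_ (fun j' => ?_) j
    · intro _ h0
      have := h0s i'
      have e : (dir a b 0 : ℤ) * m i'.succ - dir a b i'.succ * m 0 = 0 := by linarith
      rw [e, mul_zero] at this
      have h2 : (period b : ℤ) * const a b m i' = 0 := by linarith
      rcases mul_eq_zero.1 h2 with h3 | h3
      · exact absurd h3 hPz.ne'
      · exact hne i' h3
    · intro hij h0
      have := hss i' j'
      rw [h0, mul_zero] at this
      rcases mul_eq_zero.1 this.symm with h3 | h3
      · exact absurd h3 hPz.ne'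
      · refine hnd i' j' (fun e => hij (by rw [e])) (by linarith)

/-- **Theorem.** (0) Systems of at most `Q` equations with coprime coefficients at most `Q` have level `Q`. The integral
solutions of the system with the solution `m` are the `m + n A`. If all `c_i ≠ 0`, all `a_j c_i ≠ a_i c_j` (`i ≠ j`) and
there is no local obstruction, then the singular series converges to a positive number.
(1) For every large `X` the formula holds for all systems of level at most `A log log X`. (2) For arbitrarily large `X`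
it holds for all systems of level at most `c log X / log log X`. (3) For every large `X` it holds for all systems of
level at most `c log X / log log X`, unless there is an exceptional zero at the scale `X`. -/
theorem result :
    (∀ (K : ℕ) (a b : Fin K → ℕ),
      (∀ Q : ℕ, K ≤ Q → (∀ i, 1 ≤ a i ∧ a i ≤ Q ∧ 1 ≤ b i ∧ b i ≤ Q ∧ (a i).Coprime (b i)) → Level Q a b) ∧
      ((∀ i, 1 ≤ a i ∧ 1 ≤ b i ∧ (a i).Coprime (b i)) → ∀ m : Fin (K + 1) → ℕ,
        (∀ x : Fin (K + 1) → ℤ, (∀ i : Fin K, (a i : ℤ) * x 0 - b i * x i.succ = const a b m i) ↔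
          ∃ n : ℤ, ∀ j, x j = m j + n * dir a b j) ∧
        ((∀ i, const a b m i ≠ 0) → (∀ i j, i ≠ j → a j * const a b m i ≠ a i * const a b m j) → Admissible a b m →
          Tendsto (partialSeries a b m) atTop (nhds (series a b m)) ∧ 0 < series a b m))) ∧
    (∀ A ε : ℝ, 0 < ε → ∀ᶠ X : ℕ in atTop, ∀ Q : ℕ, (Q : ℝ) ≤ A * Real.log (Real.log X) → Holds X Q ε) ∧
    (∃ c : ℝ, 0 < c ∧ ∀ ε : ℝ, 0 < ε → ∃ᶠ X : ℕ in atTop, ∀ Q : ℕ,
      (Q : ℝ) ≤ c * (Real.log X / Real.log (Real.log X)) → Holds X Q ε) ∧
    (∃ c C : ℝ, 0 < c ∧ 0 < C ∧ ∀ ε : ℝ, 0 < ε → ∀ᶠ X : ℕ in atTop, NoExceptionalZero C X →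
      ∀ Q : ℕ, (Q : ℝ) ≤ c * (Real.log X / Real.log (Real.log X)) → Holds X Q ε) := by
  have hLL : Tendsto (fun Y : ℕ => Real.log Y / Real.log (Real.log Y)) atTop atTop := by
    have h1 : Tendsto (fun x : ℝ => x / Real.log x) atTop atTop := by
      have h2 : Tendsto (fun x : ℝ => Real.log x / x) atTop (nhdsWithin 0 (Set.Ioi 0)) := by
        rw [tendsto_nhdsWithin_iff]
        refine ⟨?_, ?_⟩
        · have := Real.isLittleO_log_id_atTop.tendsto_div_nhds_zero
          simpa using this
        · filter_upwards [eventually_gt_atTop 1] with x hx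
          have := Real.log_pos hx
          exact div_pos this (by linarith)
      refine (tendsto_inv_nhdsGT_zero.comp h2).congr fun x => ?_
      simp
    exact h1.comp Pool.Agent.Q145.SZ.log_tendsto
  refine ⟨fun K a b => ⟨fun Q hK h => level_of hK h, fun h m => ⟨fun x => sol_iff (fun i => ⟨(h i).1, (h i).2.1⟩) (fun i => (h i).2.2) m x,
    fun h1 h2 h3 => conv_of (fun i => ⟨(h i).1, (h i).2.1⟩) m h1 h2 h3⟩⟩, ?_, ?_, ?_⟩
  · intro A ε hε
    filter_upwards [mainE1 (4 * |A| + 8) ε hε, Pool.Agent.Q145.SZ.ll_tendsto.eventually_ge_atTop 1] with X h hX Q hQ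
    apply holds_of
    apply h
    have h1 : A * Real.log (Real.log X) ≤ |A| * Real.log (Real.log X) := mul_le_mul_of_nonneg_right (le_abs_self A) (by linarith)
    push_cast
    nlinarith
  · obtain ⟨c, hc, h⟩ := mainE2
    refine ⟨c / 8, by positivity, fun ε hε => ?_⟩
    refine ((h ε hε).and_eventually (hLL.eventually_ge_atTop (16 / c))).mono ?_
    rintro X ⟨h1, h2⟩ Q hQ
    apply holds_of
    apply h1
    rw [div_le_iff₀ hc] at h2
    push_cast
    linarith
  · obtain ⟨c, C, hc, hC, h⟩ := mainE3
    refine ⟨c / 8, C, by positivity, hC, fun ε hε => ?_⟩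
    filter_upwards [h ε hε, hLL.eventually_ge_atTop (16 / c)] with X h1 h2 hne Q hQ
    apply holds_of
    apply h1 hne
    rw [div_le_iff₀ hc] at h2
    push_cast
    linarith

end Pool.Agent.Results.MP_bf63dc_nt.LongSystemsOfEquations
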