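import Mathlib
import Pool.Agent.Q178.RS.Nt

/-!
# The equations `a p - b q = κ (a - b)`: three solvable slopes give every slope of a group of index at most three

Let `κ ≠ 0`. The equation `a p - b q = κ (a - b)` says that `(p - κ) / (q - κ) = b / a`. For all coprime
`a ≠ b` prime to `κ` the triple `(a, b, κ (a - b))` satisfies the hypotheses of the question, so the question asks
whether every `r ≠ 1` of the group `adm κ` of positive rationals prime to `κ` is *solved*: `r = b / a` where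
`a p - b q = κ (a - b)` has infinitely many prime solutions (`Solved` also asks for `x ^ (1 - η)` primes `q ≤ x`).

Let `G` be an arbitrary infinite subgroup of `adm κ` (the whole group, or the powers of one integer prime to `κ`,
or the rationals congruent to `1` modulo `m`). There is a subgroup `H` of index `1`, `2` or `3` in `G` that contains
all solved elements of `G`, such that every element of `H` is a product `s f₁ f₂` of at most three solved elements
of `G`, where `f₁, f₂` are taken from one finite set; one `f` suffices if `H ≠ G`. Among any four elements of `G`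
two have a quotient `s f`.

The proof applies a theorem on arbitrary abelian groups (`Pool.Agent.Q178.RS.Abs2`) to the coloured Maynard-Tao
theorem above one quarter for linear forms (`Pool.Agent.TH899.UG.quarterD`).
-/

set_option autoImplicit false

namespace Pool.Agent.Results.MP_bf63dc_nt.RatiosOfShiftedPrimes

open Q178.RS

theorem result (κ : ℤ) (hκ : κ ≠ 0) :
    (∀ u : adm κ, u ≠ 1 → ∃ a b : ℕ, ((u : ℚˣ) : ℚ) = (b : ℚ) / a ∧ 1 ≤ a ∧ 1 ≤ b ∧
      κ * ((a : ℤ) - b) ≠ 0 ∧ IsCoprime (a : ℤ) b ∧ IsCoprime (a : ℤ) (κ * (a - b)) ∧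
      IsCoprime (b : ℤ) (κ * (a - b)) ∧ ¬ (Odd a ∧ Odd b ∧ Odd (κ * ((a : ℤ) - b)))) ∧
    (adm κ : Set ℚˣ).Infinite ∧
    ∀ G : Subgroup ℚˣ, G ≤ adm κ → (G : Set ℚˣ).Infinite →
      ∃ H : Subgroup G, (H.index = 1 ∨ H.index = 2 ∨ H.index = 3) ∧
        (∀ u : G, Solved κ ((u : ℚˣ) : ℚ) → u ∈ H) ∧
        ∃ F : Finset G, (∀ f ∈ F, f = 1 ∨ Solved κ ((f : ℚˣ) : ℚ)) ∧
          (∀ h ∈ H, ∃ s : G, (s = 1 ∨ Solved κ ((s : ℚˣ) : ℚ)) ∧
            ∃ f₁ ∈ F, ∃ f₂ ∈ F, h = s * (f₁ * f₂)) ∧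
          (H ≠ ⊤ → ∀ h ∈ H, ∃ s : G, (s = 1 ∨ Solved κ ((s : ℚˣ) : ℚ)) ∧ ∃ f ∈ F, h = s * f) ∧
          (∀ g : Fin 4 → G, ∃ i j : Fin 4, i ≠ j ∧ ∃ s : G,
            (s = 1 ∨ Solved κ ((s : ℚˣ) : ℚ)) ∧ ∃ f ∈ F, g i / g j = s * f) := by
  refine ⟨fun u hu => hyp_of_adm hκ _ u.2.1 ?_ u.2.2.1 u.2.2.2, ?_, ?_⟩
  · intro h1
    exact hu (Subtype.ext (Units.ext h1))
  · have := adm_infinite hκ
    exact Set.infinite_coe_iff.1 this
  · intro G hG hinf
    obtain ⟨K, hK⟩ := four_rs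
    have : Infinite G := Set.infinite_coe_iff.2 hinf
    obtain ⟨H, hSH, ⟨hi0, hi3⟩, F, hFS, -, hF2, hF3, hF4⟩ :=
      main (S := solSet κ G) (Or.inl rfl) rs_inv (hK hκ G hG)
    exact ⟨H, by omega, fun u hu => hSH (Or.inr hu), F, fun f hf => hFS hf, hF2, hF3, hF4⟩

end Pool.Agent.Results.MP_bf63dc_nt.RatiosOfShiftedPrimes
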