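import Mathlib
import Pool.Agent.Q165.SlopeDef
import Pool.Agent.Q165.SlopeTur

/-!
# Cliques of solvable lines in arbitrary families of slopes, at arbitrary positions

`Good a b c` says that `(a, b, c)` satisfies the hypotheses of the question and that
`a p - b q = c` has infinitely many solutions in primes (and many, in the sense of `Many`).

The coloured Maynard-Tao theorem above one quarter (`Pool.Agent.TH899.UG.quarterD`) is taken from the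
starting files.
-/

set_option autoImplicit false

namespace Pool.Agent.Results.MP_bf63dc_nt.SlopeCliques

open Q165.Slope

theorem result : ∃ c₀ : ℝ, 0 < c₀ ∧ c₀ < 1 ∧ ∀ (T : ℕ) (m : Fin T → ℕ), (∀ l, 1 ≤ m l) →
    (∃ Λ W : ℕ, 1 ≤ Λ ∧ ∀ B : Fin T → ℤ, ∃ (S : Finset (Fin T)) (β : Fin T → ℤ),
      (T : ℝ) ≤ (4 - c₀) * S.card ∧ (∀ j, |β j - B j| ≤ W) ∧
      (∀ i ∈ S, ∀ j ∈ S, i < j → ∀ a b : ℕ, Nat.Coprime a b → a * m j = b * m i →
        Good a b (a * β j - b * β i)) ∧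
      Many {n : ℕ | ∀ j ∈ S, 0 < ((Λ * m j : ℕ) : ℤ) * n + β j ∧
        Prime (((Λ * m j : ℕ) : ℤ) * n + β j)}) ∧
    (∃ C : ℕ, ∀ B : Fin T → ℤ, ∃ S : Finset (Fin T), (T : ℝ) ≤ (4 - c₀) * S.card ∧
      ∀ i ∈ S, ∀ j ∈ S, i < j → ∃ (a b : ℕ) (c : ℤ), a * m j = b * m i ∧ Good a b c ∧
        |c - a * B j| ≤ C) ∧
    (∃ C : ℕ, ∀ B : Fin T → ℤ, (T : ℝ) * (T - 3) / 6 ≤
      ({x : Fin T × Fin T | x.1 < x.2 ∧ ∃ (a b : ℕ) (c : ℤ), a * m x.2 = b * m x.1 ∧ Good a b c ∧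
        |c - a * B x.2| ≤ C}.ncard : ℝ)) := by
  obtain ⟨c₀, h0, h1, H⟩ := cliques
  exact ⟨c₀, h0, h1, fun T m hm => ⟨(H T m hm).1, (H T m hm).2,
    third c₀ h0 h1 (fun T' m' hm' => (H T' m' hm').2) T m hm⟩⟩

end Pool.Agent.Results.MP_bf63dc_nt.SlopeCliques
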